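import Pool.Agent.H27.PM.Contr

/-!
# A sparse graph whose tight sets contain triangles has an edge which can be contracted

`exists_good`: submodularity of tight sets, the star lemma (`star`): a tight set `B` contains a
triangle `a, b, c` such that every tight subset of `B` containing `b` and `c` contains `a`, and
`bc` is not a prescribed pair.
-/

set_option autoImplicit false

namespace Pool.Agent.H24.TC

open Pool.Agent.H27.PM

variable {W : Type*} [Fintype W] {H : SimpleGraph W}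

theorem sub_mod [DecidableEq W] (S T : Finset W) :
    (edgesIn H S).card + (edgesIn H T).card ≤
      (edgesIn H (S ∪ T)).card + (edgesIn H (S ∩ T)).card := by
  classical
  rw [← Finset.card_union_add_card_inter (edgesIn H S) (edgesIn H T)]
  apply Nat.add_le_add
  · apply Finset.card_le_card
    intro e he
    induction e using Sym2.ind with
    | _ x y =>
    rw [Finset.mem_union, mem_edgesIn, mem_edgesIn] at he
    rw [mem_edgesIn, Finset.mem_union, Finset.mem_union]
    rcases he with ⟨h1, h2, h3⟩ | ⟨h1, h2, h3⟩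
    · exact ⟨h1, Or.inl h2, Or.inl h3⟩
    · exact ⟨h1, Or.inr h2, Or.inr h3⟩
  · apply Finset.card_le_card
    intro e he
    induction e using Sym2.ind with
    | _ x y =>
    rw [Finset.mem_inter, mem_edgesIn, mem_edgesIn] at he
    rw [mem_edgesIn, Finset.mem_inter, Finset.mem_inter]
    exact ⟨he.1.1, ⟨he.1.2.1, he.2.2.1⟩, he.1.2.2, he.2.2.2⟩

theorem sub_mod' [DecidableEq W] (S T : Finset W) {x y : W} (hx : x ∈ S) (hx' : x ∉ T)
    (hy : y ∈ T) (hy' : y ∉ S) (hxy : H.Adj x y) :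
    (edgesIn H S).card + (edgesIn H T).card + 1 ≤
      (edgesIn H (S ∪ T)).card + (edgesIn H (S ∩ T)).card := by
  classical
  rw [← Finset.card_union_add_card_inter (edgesIn H S) (edgesIn H T), add_right_comm]
  apply Nat.add_le_add
  · have hnot : s(x, y) ∉ edgesIn H S ∪ edgesIn H T := by
      rw [Finset.mem_union, mem_edgesIn, mem_edgesIn]
      rintro (⟨-, -, h⟩ | ⟨-, h, -⟩)
      · exact hy' h
      · exact hx' h
    rw [← Finset.card_insert_of_notMem hnot]
    apply Finset.card_le_card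
    intro e he
    rw [Finset.mem_insert] at he
    rcases he with rfl | he
    · rw [mem_edgesIn, Finset.mem_union, Finset.mem_union]
      exact ⟨hxy, Or.inl hx, Or.inr hy⟩
    · induction e using Sym2.ind with
      | _ x y =>
      rw [Finset.mem_union, mem_edgesIn, mem_edgesIn] at he
      rw [mem_edgesIn, Finset.mem_union, Finset.mem_union]
      rcases he with ⟨h1, h2, h3⟩ | ⟨h1, h2, h3⟩
      · exact ⟨h1, Or.inl h2, Or.inl h3⟩
      · exact ⟨h1, Or.inr h2, Or.inr h3⟩
  · apply Finset.card_le_card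
    intro e he
    induction e using Sym2.ind with
    | _ x y =>
    rw [Finset.mem_inter, mem_edgesIn, mem_edgesIn] at he
    rw [mem_edgesIn, Finset.mem_inter, Finset.mem_inter]
    exact ⟨he.1.1, ⟨he.1.2.1, he.2.2.1⟩, he.1.2.2, he.2.2.2⟩

theorem tight_union [DecidableEq W] (hs : Sparse H) {S T : Finset W} (hS : Tight H S)
    (hT : Tight H T) (h2 : 2 ≤ (S ∩ T).card) : Tight H (S ∪ T) := by
  have h := sub_mod (H := H) S T
  have hi := hs (S ∩ T) h2
  have hc := Finset.card_union_add_card_inter S T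
  have h3 : 3 ≤ (S ∪ T).card := hS.1.trans (Finset.card_le_card Finset.subset_union_left)
  have hu := hs (S ∪ T) (by omega)
  have hS2 := hS.2
  have hT2 := hT.2
  exact ⟨h3, by omega⟩

theorem tight_inter [DecidableEq W] (hs : Sparse H) {S T : Finset W} (hS : Tight H S)
    (hT : Tight H T) (h3 : 3 ≤ (S ∩ T).card) : Tight H (S ∩ T) := by
  have h := sub_mod (H := H) S T
  have hi := hs (S ∩ T) (by omega)
  have hc := Finset.card_union_add_card_inter S T
  have h3' : 3 ≤ (S ∪ T).card := hS.1.trans (Finset.card_le_card Finset.subset_union_left)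
  have hu := hs (S ∪ T) (by omega)
  have hS2 := hS.2
  have hT2 := hT.2
  exact ⟨h3, by omega⟩

theorem no_cross [DecidableEq W] (hs : Sparse H) {S T : Finset W} (hS : Tight H S)
    (hT : Tight H T) (h2 : 2 ≤ (S ∩ T).card) {x y : W} (hx : x ∈ S) (hx' : x ∉ T)
    (hy : y ∈ T) (hy' : y ∉ S) : ¬ H.Adj x y := by
  intro hxy
  have h := sub_mod' (H := H) S T hx hx' hy hy' hxy
  have hi := hs (S ∩ T) h2
  have hc := Finset.card_union_add_card_inter S T
  have h3' : 3 ≤ (S ∪ T).card := hS.1.trans (Finset.card_le_card Finset.subset_union_left)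
  have hu := hs (S ∪ T) (by omega)
  have hS2 := hS.2
  have hT2 := hT.2
  omega

/-- the conclusion of the star lemma -/
def Concl (H : SimpleGraph W) (B : Finset W) (r1 r2 : W) : Prop :=
  ∃ a ∈ B, ∃ b ∈ B, ∃ c ∈ B, H.Adj a b ∧ H.Adj a c ∧ H.Adj b c ∧ s(b, c) ≠ s(r1, r2) ∧
    ∀ N, Tight H N → N ⊆ B → b ∈ N → c ∈ N → a ∈ N

theorem step [DecidableEq W] (hs : Sparse H) {B M : Finset W}
    (IH : ∀ B' : Finset W, B'.card < B.card → Tight H B' → ∀ r1 r2, r1 ≠ r2 → Concl H B' r1 r2)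
    {p q t r1 r2 : W} (hMt : Tight H M) (hMB : M ⊆ B) (hp : p ∈ M) (hq : q ∈ M) (ht : t ∉ M)
    (htB : t ∈ B) (hpq : p ≠ q) (htp : H.Adj t p) (htq : H.Adj t q)
    (hmax : ∀ M', Tight H M' → M' ⊆ B → p ∈ M' → q ∈ M' → t ∉ M' → M'.card ≤ M.card)
    (hr : ¬ (r1 ∈ M ∧ r2 ∈ M)) : Concl H B r1 r2 := by
  have hlt : M.card < B.card := by
    apply Finset.card_lt_card
    rw [Finset.ssubset_iff_of_subset hMB]
    exact ⟨t, htB, ht⟩
  obtain ⟨a, ha, b, hb, c, hc, hab, hac, hbc, hne, hN⟩ := IH M hlt hMt p q hpq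
  refine ⟨a, hMB ha, b, hMB hb, c, hMB hc, hab, hac, hbc, ?_, ?_⟩
  · intro h
    rcases Sym2.eq_iff.1 h with ⟨h1, h2⟩ | ⟨h1, h2⟩
    · exact hr ⟨h1 ▸ hb, h2 ▸ hc⟩
    · exact hr ⟨h2 ▸ hc, h1 ▸ hb⟩
  · intro N hNt hNB hbN hcN
    by_contra haN
    by_cases h3 : 3 ≤ (N ∩ M).card
    · have h4 := hN (N ∩ M) (tight_inter hs hNt hMt h3) Finset.inter_subset_right
        (Finset.mem_inter.2 ⟨hbN, hb⟩) (Finset.mem_inter.2 ⟨hcN, hc⟩)
      exact haN (Finset.mem_inter.1 h4).1
    · have hsub : ({b, c} : Finset W) ⊆ N ∩ M := by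
        intro z hz
        rw [Finset.mem_insert, Finset.mem_singleton] at hz
        rcases hz with rfl | rfl
        · exact Finset.mem_inter.2 ⟨hbN, hb⟩
        · exact Finset.mem_inter.2 ⟨hcN, hc⟩
      have hcard : ({b, c} : Finset W).card = 2 := Finset.card_pair hbc.ne
      have h2 : 2 ≤ (N ∩ M).card := hcard ▸ Finset.card_le_card hsub
      have heq : ({b, c} : Finset W) = N ∩ M :=
        Finset.eq_of_subset_of_card_le hsub (by omega)
      by_cases htN : t ∈ N
      · have hpN : p ∈ N := by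
          by_contra hpN
          exact no_cross hs hNt hMt h2 htN ht hp hpN htp
        have hqN : q ∈ N := by
          by_contra hqN
          exact no_cross hs hNt hMt h2 htN ht hq hqN htq
        have h5 : p ∈ ({b, c} : Finset W) := by
          rw [heq]
          exact Finset.mem_inter.2 ⟨hpN, hp⟩
        have h6 : q ∈ ({b, c} : Finset W) := by
          rw [heq]
          exact Finset.mem_inter.2 ⟨hqN, hq⟩
        rw [Finset.mem_insert, Finset.mem_singleton] at h5 h6
        apply hne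
        rcases h5 with rfl | rfl <;> rcases h6 with rfl | rfl
        · exact absurd rfl hpq
        · rfl
        · exact Sym2.eq_swap
        · exact absurd rfl hpq
      · have hU := tight_union hs hNt hMt h2
        have h7 := hmax (N ∪ M) hU (Finset.union_subset hNB hMB) (Finset.mem_union_right _ hp)
          (Finset.mem_union_right _ hq) (by
            rw [Finset.mem_union]
            rintro (h | h)
            · exact htN h
            · exact ht h)
        have h8 := Finset.card_union_add_card_inter N M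
        have h9 := hNt.1
        omega

/-- a blocking set of maximal size -/
theorem exists_max [DecidableEq W] {B : Finset W} {p q t : W}
    (h : ∃ N, Tight H N ∧ N ⊆ B ∧ p ∈ N ∧ q ∈ N ∧ t ∉ N) :
    ∃ M, Tight H M ∧ M ⊆ B ∧ p ∈ M ∧ q ∈ M ∧ t ∉ M ∧
      ∀ M', Tight H M' → M' ⊆ B → p ∈ M' → q ∈ M' → t ∉ M' → M'.card ≤ M.card := by
  classical
  obtain ⟨N, hN⟩ := h
  let F : Finset (Finset W) :=
    Finset.univ.filter (fun N => Tight H N ∧ N ⊆ B ∧ p ∈ N ∧ q ∈ N ∧ t ∉ N)
  have hF : F.Nonempty := ⟨N, by simp only [F, Finset.mem_filter, Finset.mem_univ, true_and]; exact hN⟩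
  obtain ⟨M, hM, hmax⟩ := Finset.exists_max_image F Finset.card hF
  simp only [F, Finset.mem_filter, Finset.mem_univ, true_and] at hM hmax
  exact ⟨M, hM.1, hM.2.1, hM.2.2.1, hM.2.2.2.1, hM.2.2.2.2,
    fun M' h1 h2 h3 h4 h5 => hmax M' ⟨h1, h2, h3, h4, h5⟩⟩

/-- two blocked edges of a triangle -/
theorem core [DecidableEq W] (hs : Sparse H) {B : Finset W}
    (IH : ∀ B' : Finset W, B'.card < B.card → Tight H B' → ∀ r1 r2, r1 ≠ r2 → Concl H B' r1 r2)
    {x y z r1 r2 : W} (hr : r1 ≠ r2) (hx : x ∈ B) (hz : z ∈ B)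
    (hxy : H.Adj x y) (hyz : H.Adj y z) (hxz : H.Adj x z)
    (h1 : ∃ N, Tight H N ∧ N ⊆ B ∧ y ∈ N ∧ x ∈ N ∧ z ∉ N)
    (h2 : ∃ N, Tight H N ∧ N ⊆ B ∧ y ∈ N ∧ z ∈ N ∧ x ∉ N) : Concl H B r1 r2 := by
  obtain ⟨M1, ht1, hB1, hy1, hx1, hz1, hm1⟩ := exists_max h1
  obtain ⟨M2, ht2, hB2, hy2, hz2, hx2, hm2⟩ := exists_max h2
  have hlt : (M1 ∩ M2).card < 2 := by
    by_contra hc
    exact no_cross hs ht1 ht2 (by omega) hx1 hx2 hz2 hz1 hxz
  by_cases hc : r1 ∈ M1 ∧ r2 ∈ M1
  · refine step hs IH ht2 hB2 hy2 hz2 hx2 hx hyz.ne hxy hxz hm2 ?_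
    rintro ⟨h3, h4⟩
    have hsub : ({r1, r2} : Finset W) ⊆ M1 ∩ M2 := by
      intro w hw
      rw [Finset.mem_insert, Finset.mem_singleton] at hw
      rcases hw with rfl | rfl
      · exact Finset.mem_inter.2 ⟨hc.1, h3⟩
      · exact Finset.mem_inter.2 ⟨hc.2, h4⟩
    have := Finset.card_le_card hsub
    rw [Finset.card_pair hr] at this
    omega
  · exact step hs IH ht1 hB1 hy1 hx1 hz1 hz hxy.ne.symm hyz.symm hxz.symm hm1 hc

theorem star (hs : Sparse H)
    (htri : ∀ S : Finset W, Tight H S →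
      ∃ x ∈ S, ∃ y ∈ S, ∃ z ∈ S, H.Adj x y ∧ H.Adj y z ∧ H.Adj x z) :
    ∀ (n : ℕ) (B : Finset W), B.card = n → Tight H B → ∀ r1 r2, r1 ≠ r2 → Concl H B r1 r2 := by
  classical
  intro n
  induction n using Nat.strong_induction_on with
  | _ n ih =>
  intro B hBn hB r1 r2 hr
  have IH : ∀ B' : Finset W, B'.card < B.card → Tight H B' → ∀ r1 r2, r1 ≠ r2 →
      Concl H B' r1 r2 := fun B' h1 h2 r1 r2 h3 => ih B'.card (hBn ▸ h1) B' rfl h2 r1 r2 h3
  obtain ⟨x, hx, y, hy, z, hz, hxy, hyz, hxz⟩ := htri B hB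
  -- an edge which is not the root is blocked, or we are done
  have key : ∀ p q t : W, p ∈ B → q ∈ B → t ∈ B → H.Adj t p → H.Adj t q → H.Adj p q →
      s(p, q) ≠ s(r1, r2) →
      Concl H B r1 r2 ∨ ∃ N, Tight H N ∧ N ⊆ B ∧ p ∈ N ∧ q ∈ N ∧ t ∉ N := by
    intro p q t hp hq ht htp htq hpq hne
    by_cases h : ∃ N, Tight H N ∧ N ⊆ B ∧ p ∈ N ∧ q ∈ N ∧ t ∉ N
    · exact Or.inr h
    · left
      refine ⟨t, ht, p, hp, q, hq, htp, htq, hpq, hne, ?_⟩
      intro N h1 h2 h3 h4
      by_contra h5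
      exact h ⟨N, h1, h2, h3, h4, h5⟩
  by_cases e1 : s(y, z) = s(r1, r2)
  · -- the edges `xy`, `xz` are not the root
    have e2 : s(x, y) ≠ s(r1, r2) := by
      rw [← e1]
      intro h
      rcases Sym2.eq_iff.1 h with ⟨h1, -⟩ | ⟨h1, -⟩
      · exact hxy.ne h1
      · exact hxz.ne h1
    have e3 : s(x, z) ≠ s(r1, r2) := by
      rw [← e1]
      intro h
      rcases Sym2.eq_iff.1 h with ⟨h1, -⟩ | ⟨h1, -⟩
      · exact hxy.ne h1
      · exact hxz.ne h1
    rcases key x y z hx hy hz hxz.symm hyz.symm hxy e2 with h | h1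
    · exact h
    rcases key x z y hx hz hy hxy.symm hyz hxz e3 with h | h2
    · exact h
    exact core hs IH hr hy hz hxy.symm hxz hyz h1 h2
  · rcases key y z x hy hz hx hxy hxz hyz e1 with h | h1
    · exact h
    by_cases e2 : s(x, y) = s(r1, r2)
    · have e3 : s(x, z) ≠ s(r1, r2) := by
        rw [← e2]
        intro h
        rcases Sym2.eq_iff.1 h with ⟨-, h1⟩ | ⟨h1, -⟩
        · exact hyz.ne h1.symm
        · exact hxy.ne h1
      rcases key z x y hz hx hy hyz hxy.symm hxz.symm (by rwa [Sym2.eq_swap]) with h | h2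
      · exact h
      have h1' : ∃ N, Tight H N ∧ N ⊆ B ∧ z ∈ N ∧ y ∈ N ∧ x ∉ N := by
        obtain ⟨N, a1, a2, a3, a4, a5⟩ := h1
        exact ⟨N, a1, a2, a4, a3, a5⟩
      exact core hs IH hr hy hx hyz hxz.symm hxy.symm h1' h2
    · rcases key y x z hy hx hz hyz.symm hxz.symm hxy.symm (by rwa [Sym2.eq_swap]) with h | h2
      · exact h
      exact core hs IH hr hx hz hxy hyz hxz h2 h1

/-- every vertex of a tight set has a neighbour -/
theorem tight_nbr (hs : Sparse H) {S : Finset W} (hS : Tight H S) :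
    ∀ w ∈ S, ∃ w', H.Adj w w' := by
  classical
  intro w hw
  by_contra hno
  have he : edgesIn H S ⊆ edgesIn H (S.erase w) := by
    intro e he
    induction e using Sym2.ind with
    | _ x y =>
    rw [mem_edgesIn] at he ⊢
    refine ⟨he.1, Finset.mem_erase.2 ⟨?_, he.2.1⟩, Finset.mem_erase.2 ⟨?_, he.2.2⟩⟩
    · rintro rfl
      exact hno ⟨y, he.1⟩
    · rintro rfl
      exact hno ⟨x, he.1.symm⟩
  have h1 := Finset.card_le_card he
  have h2 := Finset.card_erase_of_mem hw
  have h3 := hS.1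
  have h4 := hs (S.erase w) (by omega)
  have h5 := hS.2
  omega

theorem exists_good (hs : Sparse H)
    (htri : ∀ S : Finset W, 3 ≤ S.card → (edgesIn H S).card + 3 = 2 * S.card →
      (∀ w ∈ S, ∃ w', H.Adj w w') →
      ∃ x ∈ S, ∃ y ∈ S, ∃ z ∈ S, H.Adj x y ∧ H.Adj y z ∧ H.Adj x z)
    (hE : ∃ a b, H.Adj a b) : ∃ a b, GoodEdge H a b := by
  classical
  by_cases hT : ∃ S, Tight H S
  · let F : Finset (Finset W) := Finset.univ.filter (fun N => Tight H N)
    have hF : F.Nonempty := by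
      obtain ⟨S, hS⟩ := hT
      exact ⟨S, by simp only [F, Finset.mem_filter, Finset.mem_univ, true_and]; exact hS⟩
    obtain ⟨B, hB, hmax⟩ := Finset.exists_max_image F Finset.card hF
    simp only [F, Finset.mem_filter, Finset.mem_univ, true_and] at hB hmax
    have htri' : ∀ S : Finset W, Tight H S →
        ∃ x ∈ S, ∃ y ∈ S, ∃ z ∈ S, H.Adj x y ∧ H.Adj y z ∧ H.Adj x z :=
      fun S hS => htri S hS.1 hS.2 (tight_nbr hs hS)
    obtain ⟨x, hx, y, hy, z, hz, hxy, hyz, hxz⟩ := htri' B hB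
    obtain ⟨a, ha, b, hb, c, hc, hab, hac, hbc, -, hN⟩ :=
      star hs htri' B.card B rfl hB x y hxy.ne
    refine ⟨b, c, hbc, Or.inr ⟨a, hab.symm, hac.symm, ?_⟩⟩
    intro S hS hbS hcS
    have hsub : ({b, c} : Finset W) ⊆ S ∩ B := by
      intro w hw
      rw [Finset.mem_insert, Finset.mem_singleton] at hw
      rcases hw with rfl | rfl
      · exact Finset.mem_inter.2 ⟨hbS, hb⟩
      · exact Finset.mem_inter.2 ⟨hcS, hc⟩
    have h2 := Finset.card_le_card hsub
    rw [Finset.card_pair hbc.ne] at h2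
    have hU := tight_union hs hS hB h2
    have h3 := hmax (S ∪ B) hU
    have h4 : B = S ∪ B := Finset.eq_of_subset_of_card_le Finset.subset_union_right h3
    exact hN S hS (h4 ▸ Finset.subset_union_left) hbS hcS
  · obtain ⟨a, b, hab⟩ := hE
    exact ⟨a, b, hab, Or.inl fun S hS _ _ => hT ⟨S, hS⟩⟩

end Pool.Agent.H24.TC
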